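import Pool.Agent.Helper85.LC.Defs

/-!
# MP_816dee_pr, module E2: alternating paths in bipartite graphs without sparse pairs
-/

namespace Pool.H85.LC

open Finset

namespace AltPath

/-- a consecutive sublist of a chain is a chain -/
theorem chain_of_inf {V : Type*} {R : V → V → Prop} {l l' : List V} (h : l.IsChain R)
    (h' : l' <:+: l) : l'.IsChain R := by
  obtain ⟨s, t, rfl⟩ := h'
  exact h.left_of_append.right_of_append


variable {V : Type*}

/-- Adjacent, one end in `X`, the other in `Y`. -/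
def R (Γ : SimpleGraph V) (X Y : Finset V) (a b : V) : Prop :=
  Γ.Adj a b ∧ ((a ∈ X ∧ b ∈ Y) ∨ (a ∈ Y ∧ b ∈ X))

/-- States of the depth first search. -/
structure St (r : V → V → Prop) (Z S : Finset V) (l : List V) : Prop where
  sub : S ⊆ Z
  mem : ∀ v ∈ l, v ∈ Z
  not : ∀ v ∈ l, v ∉ S
  nodup : l.Nodup
  chain : l.IsChain r
  noedge : ∀ a ∈ S, ∀ b ∈ Z, b ∉ S → b ∉ l → ¬ r a b

theorem exists_state (r : V → V → Prop) (hr : ∀ a b, r a b → r b a) (Z : Finset V) :
    ∀ k ≤ Z.card, ∃ (S : Finset V) (l : List V), St r Z S l ∧ 2 * S.card + l.length = k := by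
  classical
  intro k
  induction k with
  | zero =>
    intro _
    exact ⟨∅, [], ⟨by simp, by simp, by simp, by simp, by simp, by simp⟩, by simp⟩
  | succ k ih =>
    intro hk
    obtain ⟨S, l, h, hkl⟩ := ih (by omega)
    have hU : ∃ u ∈ Z, u ∉ S ∧ u ∉ l := by
      by_contra hcon
      push Not at hcon
      have h1 : Z ⊆ S ∪ l.toFinset := by
        intro u hu
        rw [mem_union, List.mem_toFinset]
        by_cases hS : u ∈ S
        · exact Or.inl hS
        · exact Or.inr (hcon u hu hS)
      have h2 := card_le_card h1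
      have h3 := card_union_le S l.toFinset
      have h4 := List.toFinset_card_le l
      omega
    cases l with
    | nil =>
      obtain ⟨u, hu, hS, -⟩ := hU
      refine ⟨S, [u], ⟨h.sub, by simpa using hu, by simpa using hS, by simp, by simp, ?_⟩, ?_⟩
      · intro a ha b hb hbS _
        exact h.noedge a ha b hb hbS (by simp)
      · simp at hkl ⊢
        omega
    | cons v l =>
      by_cases hv : ∃ u ∈ Z, u ∉ S ∧ u ∉ (v :: l) ∧ r u v
      · obtain ⟨u, hu, hS, hl, huv⟩ := hv
        refine ⟨S, u :: v :: l, ⟨h.sub, ?_, ?_, ?_, ?_, ?_⟩, ?_⟩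
        · intro w hw
          rcases List.mem_cons.1 hw with rfl | hw
          · exact hu
          · exact h.mem w hw
        · intro w hw
          rcases List.mem_cons.1 hw with rfl | hw
          · exact hS
          · exact h.not w hw
        · exact List.nodup_cons.2 ⟨hl, h.nodup⟩
        · exact List.isChain_cons_cons.2 ⟨huv, h.chain⟩
        · intro a ha b hb hbS hbl
          exact h.noedge a ha b hb hbS (fun h' => hbl (List.mem_cons_of_mem _ h'))
        · simp only [List.length_cons] at hkl ⊢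
          omega
      · push Not at hv
        have hvS : v ∉ S := h.not v (by simp)
        refine ⟨insert v S, l, ⟨?_, ?_, ?_, ?_, ?_, ?_⟩, ?_⟩
        · exact insert_subset (h.mem v (by simp)) h.sub
        · exact fun w hw => h.mem w (List.mem_cons_of_mem _ hw)
        · intro w hw hw'
          rcases mem_insert.1 hw' with rfl | hw'
          · exact (List.nodup_cons.1 h.nodup).1 hw
          · exact h.not w (List.mem_cons_of_mem _ hw) hw'
        · exact (List.nodup_cons.1 h.nodup).2
        · exact h.chain.tail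
        · intro a ha b hb hbS hbl hab
          rw [mem_insert, not_or] at hbS
          have hbl' : b ∉ (v :: l) := by
            rw [List.mem_cons, not_or]
            exact ⟨hbS.1, hbl⟩
          rcases mem_insert.1 ha with rfl | ha
          · exact hv b hb hbS.2 hbl' (hr _ _ hab)
          · exact h.noedge a ha b hb hbS.2 hbl' hab
        · rw [card_insert_of_notMem hvS]
          simp only [List.length_cons] at hkl
          omega

open Classical in
/-- Alternation. -/
theorem alternate (Γ : SimpleGraph V) (X Y : Finset V) (hXY : Disjoint X Y) :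
    ∀ l : List V, l.IsChain (R Γ X Y) → (∀ v ∈ l, v ∈ X ∨ v ∈ Y) →
      (l.countP (· ∈ X) ≤ l.countP (· ∈ Y) + 1 ∧ l.countP (· ∈ Y) ≤ l.countP (· ∈ X) + 1) ∧
      (∀ v ∈ l.head?, (v ∈ X → l.countP (· ∈ Y) ≤ l.countP (· ∈ X)) ∧
        (v ∈ Y → l.countP (· ∈ X) ≤ l.countP (· ∈ Y)))
  | [], _, _ => by simp
  | [v], _, h => by
    have hd : v ∈ X → v ∉ Y := fun h1 h2 => Finset.disjoint_left.1 hXY h1 h2
    rcases h v (by simp) with h1 | h1
    · simp [h1, hd h1]
    · have h2 : v ∉ X := fun h3 => hd h3 h1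
      simp [h1, h2]
  | u :: v :: l, hc, h => by
    have hd : ∀ v, v ∈ X → v ∉ Y := fun v h1 h2 => Finset.disjoint_left.1 hXY h1 h2
    rw [List.isChain_cons_cons] at hc
    have ih := alternate Γ X Y hXY (v :: l) hc.2 (fun w hw => h w (List.mem_cons_of_mem _ hw))
    obtain ⟨⟨i1, i2⟩, i3⟩ := ih
    have i4 := i3 v (by simp)
    rcases hc.1.2 with ⟨h1, h2⟩ | ⟨h1, h2⟩
    · have h3 := hd u h1
      have i5 := i4.2 h2
      rw [List.countP_cons_of_pos (a := u) (p := fun x => decide (x ∈ X)) (by simpa using h1),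
        List.countP_cons_of_neg (a := u) (p := fun x => decide (x ∈ Y)) (by simpa using h3)]
      refine ⟨⟨by omega, by omega⟩, ?_⟩
      intro w hw
      have : w = u := by simpa using hw.symm
      subst this
      exact ⟨fun _ => by omega, fun h4 => absurd h4 h3⟩
    · have h3 : u ∉ X := fun h4 => hd u h4 h1
      have i5 := i4.1 h2
      rw [List.countP_cons_of_neg (a := u) (p := fun x => decide (x ∈ X)) (by simpa using h3),
        List.countP_cons_of_pos (a := u) (p := fun x => decide (x ∈ Y)) (by simpa using h1)]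
      refine ⟨⟨by omega, by omega⟩, ?_⟩
      intro w hw
      have : w = u := by simpa using hw.symm
      subst this
      exact ⟨fun h4 => absurd h4 h3, fun _ => by omega⟩

open Classical in
theorem card_filter_mem (X : Finset V) {l : List V} (hl : l.Nodup) :
    (X.filter (· ∈ l)).card = l.countP (· ∈ X) := by
  have h1 : X.filter (· ∈ l) = (l.filter (· ∈ X)).toFinset := by
    ext v
    simp [and_comm]
  rw [h1, List.toFinset_card_of_nodup (hl.filter _), List.countP_eq_length_filter]

open Classical in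
theorem countP_add (X Y : Finset V) (hXY : Disjoint X Y) :
    ∀ l : List V, (∀ v ∈ l, v ∈ X ∨ v ∈ Y) →
      l.countP (· ∈ X) + l.countP (· ∈ Y) = l.length
  | [], _ => by simp
  | v :: l, h => by
    have ih := countP_add X Y hXY l (fun w hw => h w (List.mem_cons_of_mem _ hw))
    have hd : ∀ v, v ∈ X → v ∉ Y := fun v h1 h2 => Finset.disjoint_left.1 hXY h1 h2
    rcases h v (by simp) with h1 | h1
    · rw [List.countP_cons_of_pos (a := v) (p := fun x => decide (x ∈ X)) (by simpa using h1),
        List.countP_cons_of_neg (a := v) (p := fun x => decide (x ∈ Y))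
          (by simpa using hd v h1), List.length_cons]
      omega
    · rw [List.countP_cons_of_neg (a := v) (p := fun x => decide (x ∈ X))
        (by simpa using fun h3 => hd v h3 h1),
        List.countP_cons_of_pos (a := v) (p := fun x => decide (x ∈ Y)) (by simpa using h1),
        List.length_cons]
      omega

end AltPath

theorem alt_path {V : Type*} (Γ : SimpleGraph V) (X Y : Finset V) (hXY : Disjoint X Y)
    (h s : ℕ) (hX : X.card = h) (hY : Y.card = h)
    (hsee : ∀ A ⊆ X, ∀ B ⊆ Y, s ≤ A.card → s ≤ B.card → ∃ a ∈ A, ∃ b ∈ B, Γ.Adj a b) :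
    ∃ l : List V, l.Nodup ∧ l.IsChain Γ.Adj ∧ (∀ v ∈ l, v ∈ X ∨ v ∈ Y) ∧
      2 * h ≤ l.length + 4 * s ∧
      ∀ l' : List V, l' <:+: l → 2 * s ≤ l'.length →
        (∃ A ⊆ X, s ≤ A.card ∧ ∀ v ∈ A, v ∈ l') ∧ (∃ B ⊆ Y, s ≤ B.card ∧ ∀ v ∈ B, v ∈ l') := by
  classical
  have hd : ∀ v, v ∈ X → v ∉ Y := fun v h1 h2 => Finset.disjoint_left.1 hXY h1 h2
  obtain ⟨S, l, hst, hk⟩ := AltPath.exists_state (AltPath.R Γ X Y)
    (fun a b hab => ⟨hab.1.symm, hab.2.elim (fun k => Or.inr ⟨k.2, k.1⟩) (fun k => Or.inl ⟨k.2, k.1⟩)⟩) (X ∪ Y) (2 * h)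
    (by rw [card_union_of_disjoint hXY, hX, hY]; omega)
  have hmem : ∀ v ∈ l, v ∈ X ∨ v ∈ Y := fun v hv => mem_union.1 (hst.mem v hv)
  have hinf : ∀ l' : List V, l' <:+: l → (∀ v ∈ l', v ∈ X ∨ v ∈ Y) ∧ l'.Nodup ∧
      l'.IsChain (AltPath.R Γ X Y) := fun l' hl' =>
    ⟨fun v hv => hmem v (hl'.subset hv), hst.nodup.sublist hl'.sublist, AltPath.chain_of_inf hst.chain hl'⟩
  refine ⟨l, hst.nodup, hst.chain.imp fun a b hab => hab.1, hmem, ?_, ?_⟩
  · -- counting
    have c1 := AltPath.countP_add X Y hXY l hmem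
    have c2 := (AltPath.alternate Γ X Y hXY l hst.chain hmem).1
    set c := l.countP (· ∈ X) with hc
    set c' := l.countP (· ∈ Y) with hc'
    set U := (X ∪ Y).filter (fun v => v ∉ S ∧ v ∉ l) with hU
    have e1 : (S ∩ X).card + (S ∩ Y).card = S.card := by
      rw [← card_union_of_disjoint]
      · congr 1
        rw [← inter_union_distrib_left]
        exact inter_eq_left.2 hst.sub
      · exact (hXY.mono inter_subset_right inter_subset_right)
    have e2 : ∀ Z : Finset V, Z ⊆ X ∪ Y → (S ∩ Z).card + (Z.filter (· ∈ l)).card +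
        (U ∩ Z).card = Z.card := by
      intro Z hZ
      have d1 : Z = ((S ∩ Z) ∪ (Z.filter (· ∈ l))) ∪ (U ∩ Z) := by
        ext v
        simp only [mem_union, mem_inter, mem_filter, hU]
        constructor
        · intro hv
          by_cases k1 : v ∈ S
          · exact Or.inl (Or.inl ⟨k1, hv⟩)
          · by_cases k2 : v ∈ l
            · exact Or.inl (Or.inr ⟨hv, k2⟩)
            · exact Or.inr ⟨⟨mem_union.1 (hZ hv), k1, k2⟩, hv⟩
        · tauto
      have d2 : Disjoint (S ∩ Z) (Z.filter (· ∈ l)) := by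
        rw [Finset.disjoint_left]
        intro v h1 h2
        exact hst.not v (mem_filter.1 h2).2 (mem_inter.1 h1).1
      have d3 : Disjoint ((S ∩ Z) ∪ (Z.filter (· ∈ l))) (U ∩ Z) := by
        rw [Finset.disjoint_left]
        intro v h1 h2
        rw [mem_inter, hU, mem_filter] at h2
        rcases mem_union.1 h1 with h3 | h3
        · exact h2.1.2.1 (mem_inter.1 h3).1
        · exact h2.1.2.2 (mem_filter.1 h3).2
      conv_rhs => rw [d1]
      rw [card_union_of_disjoint d3, card_union_of_disjoint d2]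
    have eX := e2 X subset_union_left
    have eY := e2 Y subset_union_right
    rw [AltPath.card_filter_mem X hst.nodup] at eX
    rw [AltPath.card_filter_mem Y hst.nodup] at eY
    have f1 : (S ∩ X).card < s ∨ (U ∩ Y).card < s := by
      by_contra hcon
      push Not at hcon
      obtain ⟨a, ha, b, hb, hab⟩ := hsee (S ∩ X) inter_subset_right (U ∩ Y) inter_subset_right
        hcon.1 hcon.2
      rw [mem_inter] at ha hb
      have hb' := (mem_filter.1 hb.1)
      exact hst.noedge a ha.1 b hb'.1 hb'.2.1 hb'.2.2 ⟨hab, Or.inl ⟨ha.2, hb.2⟩⟩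
    have f2 : (U ∩ X).card < s ∨ (S ∩ Y).card < s := by
      by_contra hcon
      push Not at hcon
      obtain ⟨a, ha, b, hb, hab⟩ := hsee (U ∩ X) inter_subset_right (S ∩ Y) inter_subset_right
        hcon.1 hcon.2
      rw [mem_inter] at ha hb
      have ha' := (mem_filter.1 ha.1)
      exact hst.noedge b hb.1 a ha'.1 ha'.2.1 ha'.2.2 ⟨hab.symm, Or.inr ⟨hb.2, ha.2⟩⟩
    rcases f1 with f1 | f1 <;> rcases f2 with f2 | f2 <;> omega
  · intro l' hl' hlen
    obtain ⟨m1, m2, m3⟩ := hinf l' hl'
    have c1 := AltPath.countP_add X Y hXY l' m1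
    have c2 := (AltPath.alternate Γ X Y hXY l' m3 m1).1
    refine ⟨⟨X.filter (· ∈ l'), filter_subset _ _, ?_, fun v hv => (mem_filter.1 hv).2⟩,
      ⟨Y.filter (· ∈ l'), filter_subset _ _, ?_, fun v hv => (mem_filter.1 hv).2⟩⟩
    · rw [AltPath.card_filter_mem X m2]
      omega
    · rw [AltPath.card_filter_mem Y m2]
      omega

end Pool.H85.LC
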