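import Pool.Agent.Helper55.TM.Basic

/-!
# Module BR : monotone branches of a periodic function
-/

set_option autoImplicit false

open scoped ContDiff Topology
open Filter Set

namespace TM

theorem branch_right {c : ℝ} {f : ℝ → ℝ} (hf : ContDiff ℝ ∞ f)
    (hcr : ∀ τ, |f τ| < c → deriv f τ ≠ 0) {τ0 : ℝ} (h0 : |f τ0| < c) (hd : 0 < deriv f τ0)
    {τM : ℝ} (hM : τ0 ≤ τM) (hM2 : c ≤ f τM) :
    ∃ b, τ0 < b ∧ f b = c ∧ ∀ τ, τ0 ≤ τ → τ < b → |f τ| < c ∧ 0 < deriv f τ := by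
  have hfc : Continuous f := hf.continuous
  have hfd : Continuous (deriv f) := hf.continuous_deriv (by simp)
  set S : Set ℝ := {τ | τ0 ≤ τ ∧ c ≤ |f τ|} with hS
  have hSc : IsClosed S := (isClosed_le continuous_const continuous_id).inter
    (isClosed_le continuous_const hfc.abs)
  have hSn : S.Nonempty := ⟨τM, hM, hM2.trans (le_abs_self _)⟩
  have hSb : BddBelow S := ⟨τ0, fun τ h => h.1⟩
  set b := sInf S with hb
  have hbS : b ∈ S := hSc.csInf_mem hSn hSb
  have hb0 : τ0 < b := by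
    rcases lt_or_eq_of_le hbS.1 with h | h
    · exact h
    · exfalso
      have := hbS.2
      rw [← h] at this
      linarith
  have h1 : ∀ τ, τ0 ≤ τ → τ < b → |f τ| < c := by
    intro τ hτ hτb
    by_contra hcon
    exact absurd (csInf_le hSb ⟨hτ, not_lt.1 hcon⟩) (not_le.2 hτb)
  have h2 : ∀ τ, τ0 ≤ τ → τ < b → 0 < deriv f τ := by
    intro τ hτ hτb
    by_contra hcon
    rw [not_lt] at hcon
    obtain ⟨s, hs, hs2⟩ := intermediate_value_Icc' hτ hfd.continuousOn (show (0 : ℝ) ∈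
      Icc (deriv f τ) (deriv f τ0) from ⟨hcon, hd.le⟩)
    exact hcr s (h1 s hs.1 (hs.2.trans_lt hτb)) hs2
  have h3 : f τ0 < f b := by
    have hm : StrictMonoOn f (Icc τ0 b) := by
      apply strictMonoOn_of_deriv_pos (convex_Icc _ _) hfc.continuousOn
      intro x hx
      rw [interior_Icc] at hx
      exact h2 x hx.1.le hx.2
    exact hm (left_mem_Icc.2 hb0.le) (right_mem_Icc.2 hb0.le) hb0
  have h4 : -c < f τ0 := (abs_lt.1 h0).1
  have h5 : c ≤ f b := by
    have h6 := hbS.2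
    rcases le_abs.1 h6 with h | h
    · exact h
    · linarith
  refine ⟨b, hb0, le_antisymm ?_ h5, fun τ h h' => ⟨h1 τ h h', h2 τ h h'⟩⟩
  by_contra hcon
  rw [not_le] at hcon
  obtain ⟨s, hs, hs2⟩ := intermediate_value_Ioo hb0.le hfc.continuousOn (show c ∈
    Ioo (f τ0) (f b) from ⟨(abs_lt.1 h0).2, hcon⟩)
  have h7 := h1 s hs.1.le hs.2
  rw [hs2] at h7
  exact absurd (le_abs_self c) (not_le.2 h7)

theorem exists_ge_of_crit {c : ℝ} {f : ℝ → ℝ} (hf : ContDiff ℝ ∞ f)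
    (hper : Function.Periodic f (2 * Real.pi)) (hcr : ∀ τ, |f τ| < c → deriv f τ ≠ 0) {τ0 : ℝ}
    (h0 : |f τ0| < c) : ∃ τM, τ0 ≤ τM ∧ c ≤ f τM := by
  have hfc : Continuous f := hf.continuous
  have hpi : 0 < 2 * Real.pi := by positivity
  obtain ⟨x, hx, hmax⟩ := isCompact_Icc.exists_isMaxOn
    (nonempty_Icc.2 (show τ0 ≤ τ0 + 2 * Real.pi by linarith)) hfc.continuousOn
  refine ⟨x, hx.1, ?_⟩
  by_contra hcon
  rw [not_le] at hcon
  have hall : ∀ y, f y ≤ f x := by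
    intro y
    obtain ⟨z, hz, hzy⟩ := hper.exists_mem_Ico hpi y τ0
    rw [hzy]
    exact hmax ⟨hz.1, hz.2.le⟩
  have h1 : |f x| < c := by
    rw [abs_lt]
    exact ⟨lt_of_lt_of_le (abs_lt.1 h0).1 (hall τ0), hcon⟩
  have h2 : IsLocalMax f x := Eventually.of_forall hall
  exact hcr x h1 h2.deriv_eq_zero

theorem branch_pos {c : ℝ} {f : ℝ → ℝ} (hf : ContDiff ℝ ∞ f)
    (hper : Function.Periodic f (2 * Real.pi)) (hcr : ∀ τ, |f τ| < c → deriv f τ ≠ 0) {τ0 : ℝ}
    (h0 : |f τ0| < c) (hd : 0 < deriv f τ0) :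
    ∃ g : ℝ → ℝ, ContDiffOn ℝ ∞ g (Ioo (-c) c) ∧ g (f τ0) = τ0 ∧
      ∀ x ∈ Ioo (-c) c, f (g x) = x := by
  have hfc : Continuous f := hf.continuous
  obtain ⟨τM, hM1, hM2⟩ := exists_ge_of_crit hf hper hcr h0
  obtain ⟨b, hb0, hbc, hb⟩ := branch_right hf hcr h0 hd hM1 hM2
  -- the left end
  set F : ℝ → ℝ := fun τ => - f (-τ) with hF
  have hFs : ContDiff ℝ ∞ F := (hf.comp contDiff_neg).neg
  have hFd : ∀ τ, deriv F τ = deriv f (-τ) := by
    intro τ
    have h1 : HasDerivAt f (deriv f (-τ)) (-τ) :=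
      (hf.differentiable (by simp) (-τ)).hasDerivAt
    have h2 : HasDerivAt (fun τ : ℝ => -τ) (-1) τ := hasDerivAt_neg τ
    have h3 : HasDerivAt (fun τ : ℝ => f (-τ)) (deriv f (-τ) * (-1)) τ := h1.comp τ h2
    have h4 : HasDerivAt F (-(deriv f (-τ) * (-1))) τ := h3.neg
    rw [h4.deriv]; ring
  have hFper : Function.Periodic F (2 * Real.pi) := by
    intro τ
    have h1 := hper (-(τ + 2 * Real.pi))
    have h2 : -(τ + 2 * Real.pi) + 2 * Real.pi = -τ := by ring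
    rw [h2] at h1
    simp only [hF]
    rw [h1]
  have hFcr : ∀ τ, |F τ| < c → deriv F τ ≠ 0 := by
    intro τ h
    rw [hFd]
    apply hcr
    simpa [hF] using h
  have hF0 : |F (-τ0)| < c := by simpa [hF] using h0
  have hFd0 : 0 < deriv F (-τ0) := by rw [hFd, neg_neg]; exact hd
  obtain ⟨σM, hσ1, hσ2⟩ := exists_ge_of_crit hFs hFper hFcr hF0
  obtain ⟨a', ha0, hac, ha⟩ := branch_right hFs hFcr hF0 hFd0 hσ1 hσ2
  set a := -a' with haa
  have ha0' : a < τ0 := by linarith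
  have hfa : f a = -c := by
    have : -f (-a') = c := hac
    rw [← haa] at this
    linarith
  have hI : ∀ τ, a < τ → τ < b → |f τ| < c ∧ 0 < deriv f τ := by
    intro τ h1 h2
    rcases le_total τ0 τ with h | h
    · exact hb τ h h2
    · have h3 := ha (-τ) (by linarith) (by linarith)
      rw [hFd, neg_neg] at h3
      refine ⟨?_, h3.2⟩
      have h4 := h3.1
      simpa [hF] using h4
  have hab : a < b := ha0'.trans hb0
  have hm : StrictMonoOn f (Icc a b) := by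
    apply strictMonoOn_of_deriv_pos (convex_Icc _ _) hfc.continuousOn
    intro x hx
    rw [interior_Icc] at hx
    exact (hI x hx.1 hx.2).2
  have hex : ∀ x ∈ Ioo (-c) c, ∃ τ ∈ Ioo a b, f τ = x := by
    intro x hx
    obtain ⟨s, hs, hs2⟩ := intermediate_value_Ioo hab.le hfc.continuousOn (show x ∈
      Ioo (f a) (f b) by rw [hfa, hbc]; exact hx)
    exact ⟨s, hs, hs2⟩
  choose! g hg1 hg2 using hex
  have huniq : ∀ x ∈ Ioo (-c) c, ∀ τ ∈ Ioo a b, f τ = x → g x = τ := by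
    intro x hx τ hτ h
    have h1 := hg1 x hx
    apply hm.injOn ⟨h1.1.le, h1.2.le⟩ ⟨hτ.1.le, hτ.2.le⟩
    rw [hg2 x hx, h]
  refine ⟨g, ?_, ?_, hg2⟩
  · intro x hx
    apply ContDiffAt.contDiffWithinAt
    set τ1 := g x with hτ1
    have h1 : τ1 ∈ Ioo a b := hg1 x hx
    have h2 : f τ1 = x := hg2 x hx
    have hne : deriv f τ1 ≠ 0 := (hI τ1 h1.1 h1.2).2.ne'
    have hfda : HasDerivAt f (deriv f τ1) τ1 := (hf.differentiable (by simp) τ1).hasDerivAt
    set f' : ℝ ≃L[ℝ] ℝ := ContinuousLinearEquiv.unitsEquivAut ℝ (Units.mk0 _ hne) with hf'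
    have hfd' : HasFDerivAt f (f' : ℝ →L[ℝ] ℝ) τ1 := by
      have h3 := hfda.hasFDerivAt
      have h3' : (f' : ℝ →L[ℝ] ℝ) = ContinuousLinearMap.toSpanSingleton ℝ (deriv f τ1) := by
        apply ContinuousLinearMap.ext
        intro v
        simp [hf']
      rw [h3']
      exact h3
    have hcd : ContDiffAt ℝ ∞ f τ1 := hf.contDiffAt
    have hne0 : (∞ : WithTop ℕ∞) ≠ 0 := by simp
    have h4 := hcd.to_localInverse hfd' hne0
    have h5 := hcd.localInverse_apply_image hfd' hne0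
    have h6 := (hcd.hasStrictFDerivAt' hfd' hne0).eventually_right_inverse
    rw [h2] at h4 h5 h6
    refine h4.congr_of_eventuallyEq ?_
    have h7 : ∀ᶠ y in 𝓝 x, hcd.localInverse hfd' hne0 y ∈ Ioo a b := by
      apply h4.continuousAt.eventually
      rw [h5]
      exact isOpen_Ioo.mem_nhds h1
    filter_upwards [h6, h7, isOpen_Ioo.mem_nhds hx] with y hy1 hy2 hy3
    exact huniq y hy3 _ hy2 hy1
  · exact huniq _ (abs_lt.1 h0) τ0 ⟨ha0', hb0⟩ rfl

theorem branch {c : ℝ} (hc : 0 < c) {f : ℝ → ℝ} (hf : ContDiff ℝ ∞ f)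
    (hper : Function.Periodic f (2 * Real.pi)) (hcr : ∀ τ, |f τ| < c → deriv f τ ≠ 0) {τ0 : ℝ}
    (h0 : |f τ0| < c) : ∃ g : ℝ → ℝ, ContDiffOn ℝ ∞ g (Ioo (-c) c) ∧ g (f τ0) = τ0 ∧
      ∀ x ∈ Ioo (-c) c, f (g x) = x := by
  have _ := hc
  rcases lt_or_gt_of_ne (hcr τ0 h0) with hd | hd
  · set F : ℝ → ℝ := fun τ => f (-τ) with hF
    have hFs : ContDiff ℝ ∞ F := hf.comp contDiff_neg
    have hFd : ∀ τ, deriv F τ = - deriv f (-τ) := by
      intro τ
      have h1 : HasDerivAt f (deriv f (-τ)) (-τ) :=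
        (hf.differentiable (by simp) (-τ)).hasDerivAt
      have h2 : HasDerivAt (fun τ : ℝ => -τ) (-1) τ := hasDerivAt_neg τ
      have h3 : HasDerivAt F (deriv f (-τ) * (-1)) τ := h1.comp τ h2
      rw [h3.deriv]; ring
    have hFper : Function.Periodic F (2 * Real.pi) := by
      intro τ
      have h1 := hper (-(τ + 2 * Real.pi))
      have h2 : -(τ + 2 * Real.pi) + 2 * Real.pi = -τ := by ring
      rw [h2] at h1
      simp only [hF]
      rw [h1]
    have hFcr : ∀ τ, |F τ| < c → deriv F τ ≠ 0 := by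
      intro τ h
      rw [hFd, neg_ne_zero]
      exact hcr _ h
    have hF0 : |F (-τ0)| < c := by simpa [hF] using h0
    have hFd0 : 0 < deriv F (-τ0) := by rw [hFd, neg_neg]; linarith
    obtain ⟨g, hg1, hg2, hg3⟩ := branch_pos hFs hFper hFcr hF0 hFd0
    refine ⟨fun x => - g x, hg1.neg, ?_, hg3⟩
    have h5 : F (-τ0) = f τ0 := by simp [hF]
    rw [h5] at hg2
    change - g (f τ0) = τ0
    rw [hg2, neg_neg]
  · exact branch_pos hf hper hcr h0 hd

end TM
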