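import Pool.Agent.Helper87.TM_PL1

/-!
# Module PL2 : the parallel lemma
-/

set_option autoImplicit false

open scoped ContDiff Topology
open Filter Set

namespace TM

/-- the thickened chart `(z, t) ↦ φ z + t • n` -/
def thick (φ : ℝ × ℝ → Pt) (n : Pt) : (ℝ × ℝ) × ℝ → Pt := fun q => φ q.1 + q.2 • n

theorem thick_inverse {e : ℝ} (he : 0 < e) {φ : ℝ × ℝ → Pt} (hφ : Chart0 e φ) (z : ℝ × ℝ) :
    ∃ G : Pt → (ℝ × ℝ) × ℝ, (∀ᶠ p in 𝓝 (φ z), DifferentiableAt ℝ G p) ∧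
      ∀ᶠ z' in 𝓝 z, G (φ z') = (z', (0 : ℝ)) := by
  set n : Pt := grad (φ z) with hn
  have hpos : 0 < dFV (φ z) n := dFV_grad he (hφ.mem z)
  set L : (ℝ × ℝ) × ℝ →L[ℝ] Pt :=
    (fderiv ℝ φ z).comp (ContinuousLinearMap.fst ℝ (ℝ × ℝ) ℝ) +
      (ContinuousLinearMap.snd ℝ (ℝ × ℝ) ℝ).smulRight n with hL
  have hfφ : HasFDerivAt φ (fderiv ℝ φ z) z :=
    (hφ.smooth.differentiable (by simp) z).hasFDerivAt
  have hf' : HasFDerivAt (thick φ n) L (z, (0 : ℝ)) := by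
    have h1 : HasFDerivAt (fun q : (ℝ × ℝ) × ℝ => φ q.1)
        ((fderiv ℝ φ z).comp (ContinuousLinearMap.fst ℝ (ℝ × ℝ) ℝ)) (z, (0 : ℝ)) :=
      HasFDerivAt.comp (z, (0 : ℝ)) (g := φ) hfφ hasFDerivAt_fst
    have h2 : HasFDerivAt (fun q : (ℝ × ℝ) × ℝ => q.2 • n)
        ((ContinuousLinearMap.snd ℝ (ℝ × ℝ) ℝ).smulRight n) (z, (0 : ℝ)) :=
      ((ContinuousLinearMap.snd ℝ (ℝ × ℝ) ℝ).smulRight n).hasFDerivAt
    exact h1.add h2
  have hinj : Function.Injective L := by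
    rw [injective_iff_map_eq_zero]
    rintro ⟨w, s⟩ h
    have h1 : fderiv ℝ φ z w + s • n = 0 := by simpa [hL] using h
    have h2 : dFV (φ z) (fderiv ℝ φ z w + s • n) = 0 := by
      rw [h1]; simp [dFV]
    have h3 : dFV (φ z) (fderiv ℝ φ z w + s • n)
        = dFV (φ z) (fderiv ℝ φ z w) + s * dFV (φ z) n := by
      simp only [dFV, Prod.fst_add, Prod.snd_add, Prod.smul_fst, Prod.smul_snd, smul_eq_mul]; ring
    rw [h3, hφ.dFV_zero, zero_add] at h2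
    have hs : s = 0 := by
      rcases mul_eq_zero.1 h2 with h | h
      · exact h
      · exact absurd h hpos.ne'
    rw [hs, zero_smul, add_zero] at h1
    have hw : w = 0 := by
      apply hφ.imm z
      rw [h1, map_zero]
    rw [hw, hs]; rfl
  have hsurj : Function.Surjective L := by
    have hfr : Module.finrank ℝ ((ℝ × ℝ) × ℝ) = Module.finrank ℝ Pt := by
      simp [Pt]
    exact (LinearMap.injective_iff_surjective_of_finrank_eq_finrank (f := (L : (ℝ × ℝ) × ℝ →ₗ[ℝ] Pt))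
      hfr).1 hinj
  set L' : ((ℝ × ℝ) × ℝ) ≃L[ℝ] Pt := ContinuousLinearEquiv.ofBijective L
    (LinearMap.ker_eq_bot.2 hinj) (LinearMap.range_eq_top.2 hsurj) with hL'
  have hL'L : (L' : (ℝ × ℝ) × ℝ →L[ℝ] Pt) = L := by
    apply ContinuousLinearMap.ext
    intro v
    rfl
  have hcd : ContDiff ℝ 1 (thick φ n) := by
    unfold thick
    exact (hφ.smooth.comp contDiff_fst).add (contDiff_snd.smul contDiff_const)
  have hf'' : HasFDerivAt (thick φ n) (L' : (ℝ × ℝ) × ℝ →L[ℝ] Pt) (z, (0 : ℝ)) := by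
    rw [hL'L]; exact hf'
  have h1ne : (1 : WithTop ℕ∞) ≠ 0 := one_ne_zero
  have hcda : ContDiffAt ℝ 1 (thick φ n) (z, (0 : ℝ)) := hcd.contDiffAt
  have hth : thick φ n (z, (0 : ℝ)) = φ z := by simp [thick]
  set Hm := hcda.toOpenPartialHomeomorph (thick φ n) hf'' h1ne with hHm
  have hsrc : (z, (0 : ℝ)) ∈ Hm.source := hcda.mem_toOpenPartialHomeomorph_source hf'' h1ne
  have hcoe : ∀ q, Hm q = thick φ n q := fun q => rfl
  refine ⟨Hm.symm, ?_, ?_⟩
  · have h2 : ContDiffAt ℝ 1 Hm.symm (thick φ n (z, (0 : ℝ))) :=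
      hcda.to_localInverse hf'' h1ne
    rw [hth] at h2
    filter_upwards [h2.eventually (by simp)] with p hp
    exact hp.differentiableAt (by simp)
  · have h3 : Continuous fun z' : ℝ × ℝ => ((z', (0 : ℝ)) : (ℝ × ℝ) × ℝ) := by fun_prop
    have h4 : ∀ᶠ z' in 𝓝 z, ((z', (0 : ℝ)) : (ℝ × ℝ) × ℝ) ∈ Hm.source :=
      h3.continuousAt.eventually (Hm.open_source.mem_nhds hsrc)
    filter_upwards [h4] with z' hz'
    have h5 := Hm.left_inv hz'
    rw [hcoe] at h5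
    have h6 : thick φ n (z', (0 : ℝ)) = φ z' := by simp [thick]
    rwa [h6] at h5

theorem parallel {e : ℝ} (he : 0 < e) {φ ψ : ℝ × ℝ → Pt} (hφ : Chart0 e φ) (hψ : Chart0 e ψ)
    (hpar : ∀ z w, φ z = ψ w → ∃ a : ℝ, fderiv ℝ ψ w (1, 0) = a • fderiv ℝ φ z (1, 0))
    {z w : ℝ × ℝ} (h : φ z = ψ w) :
    ∃ ε > 0, ∀ w' : ℝ × ℝ, dist w' w < ε → w'.2 = w.2 → ∃ z', φ z' = ψ w' ∧ z'.2 = z.2 := by
  obtain ⟨G, hG1, hG2⟩ := thick_inverse he hφ z
  obtain ⟨O, hO1, hO2, hO3⟩ := mem_nhds_iff.1 hG2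
  obtain ⟨O', hO'1, hO'2⟩ := chart_open he hφ hO2
  have hψc : Continuous ψ := hψ.smooth.continuous
  have hp0 : ψ w ∈ O' := by
    have : φ z ∈ O' ∩ Surf e := by rw [hO'2]; exact ⟨z, hO3, rfl⟩
    rw [← h]; exact this.1
  have hev : ∀ᶠ w' in 𝓝 w, ψ w' ∈ O' ∧ DifferentiableAt ℝ G (ψ w') := by
    have h1 : ∀ᶠ w' in 𝓝 w, ψ w' ∈ O' := hψc.continuousAt.eventually (hO'1.mem_nhds hp0)
    have h2 : ∀ᶠ w' in 𝓝 w, DifferentiableAt ℝ G (ψ w') := by
      rw [h] at hG1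
      exact hψc.continuousAt.eventually hG1
    exact h1.and h2
  obtain ⟨ε, hε, hball⟩ := Metric.eventually_nhds_iff_ball.1 hev
  set θ : ℝ × ℝ → ℝ × ℝ := fun w' => (G (ψ w')).1 with hθ
  have hθφ : ∀ w' ∈ Metric.ball w ε, φ (θ w') = ψ w' := by
    intro w' hw'
    have h1 : ψ w' ∈ O' ∩ Surf e := ⟨(hball w' hw').1, hψ.mem w'⟩
    rw [hO'2] at h1
    obtain ⟨z', hz', hzz⟩ := h1
    have h2 : G (φ z') = (z', (0 : ℝ)) := hO1 hz'
    have h3 : θ w' = z' := by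
      rw [hθ]; simp only; rw [← hzz, h2]
    rw [h3, hzz]
  have hθd : ∀ w' ∈ Metric.ball w ε, DifferentiableAt ℝ θ w' := by
    intro w' hw'
    have h1 := (hball w' hw').2
    have h2 : DifferentiableAt ℝ ψ w' := hψ.smooth.differentiable (by simp) w'
    exact (DifferentiableAt.comp w' h1 h2).fst
  have hθ' : ∀ w' ∈ Metric.ball w ε, (fderiv ℝ θ w' (1, 0)).2 = 0 := by
    intro w' hw'
    have h1 : HasFDerivAt ψ ((fderiv ℝ φ (θ w')).comp (fderiv ℝ θ w')) w' := by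
      have h2 : HasFDerivAt φ (fderiv ℝ φ (θ w')) (θ w') :=
        (hφ.smooth.differentiable (by simp) _).hasFDerivAt
      have h3 : HasFDerivAt (φ ∘ θ) ((fderiv ℝ φ (θ w')).comp (fderiv ℝ θ w')) w' :=
        h2.comp w' (hθd w' hw').hasFDerivAt
      refine h3.congr_of_eventuallyEq ?_
      filter_upwards [Metric.isOpen_ball.mem_nhds hw'] with w'' hw''
      exact (hθφ w'' hw'').symm
    obtain ⟨a, ha⟩ := hpar (θ w') w' (hθφ w' hw')
    rw [h1.fderiv, ContinuousLinearMap.comp_apply, ← map_smul] at ha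
    have h4 := hφ.imm _ ha
    rw [h4]
    simp
  have hθw : θ w = z := by
    apply hφ.inj
    rw [hθφ w (Metric.mem_ball_self hε), h]
  refine ⟨ε, hε, fun w' hw' hw2 => ⟨θ w', hθφ w' hw', ?_⟩⟩
  -- the second coordinate is constant on the horizontal segment
  set g : ℝ → ℝ := fun s => (θ (s, w.2)).2 with hg
  have hmem : ∀ s ∈ Metric.ball w.1 ε, ((s, w.2) : ℝ × ℝ) ∈ Metric.ball w ε := by
    intro s hs
    rw [Metric.mem_ball, Prod.dist_eq]
    simp only [dist_self]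
    exact max_lt hs hε
  have hgd : ∀ s ∈ Metric.ball w.1 ε, HasDerivAt g 0 s := by
    intro s hs
    have h1 := (hθd _ (hmem s hs)).hasFDerivAt
    have h2 : HasDerivAt (fun s : ℝ => ((s, w.2) : ℝ × ℝ)) (1, 0) s :=
      (hasDerivAt_id s).prodMk (hasDerivAt_const s w.2)
    have h3 : HasDerivAt (fun s : ℝ => θ (s, w.2)) (fderiv ℝ θ (s, w.2) (1, 0)) s := by
      have h6 := HasFDerivAt.comp_hasDerivAt (f := fun s : ℝ => ((s, w.2) : ℝ × ℝ)) s h1 h2
      exact h6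
    have h4 : HasDerivAt (fun s => (θ (s, w.2)).2) (fderiv ℝ θ (s, w.2) (1, 0)).2 s := by
      have h5 := (hasFDerivAt_snd (𝕜 := ℝ) (E := ℝ) (F := ℝ) (p := θ (s, w.2))).comp_hasDerivAt s h3
      exact h5
    rw [hθ' _ (hmem s hs)] at h4
    exact h4
  have hconst : g w'.1 = g w.1 := by
    have hw'1 : w'.1 ∈ Metric.ball w.1 ε := by
      rw [Metric.mem_ball]
      refine lt_of_le_of_lt ?_ hw'
      rw [Prod.dist_eq]
      exact le_max_left _ _
    refine Metric.isOpen_ball.is_const_of_deriv_eq_zero (convex_ball w.1 ε).isPreconnected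
      (fun s hs => (hgd s hs).differentiableAt.differentiableWithinAt)
      (fun s hs => (hgd s hs).deriv) hw'1 (Metric.mem_ball_self hε)
  have e1 : g w'.1 = (θ w').2 := by
    rw [hg]; simp only; rw [← hw2]
  have e2 : g w.1 = z.2 := by
    rw [hg]; simp only; rw [← hθw]
  rw [← e1, hconst, e2]

end TM
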