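import Pool.Agent.Helper55.TM.Basic

/-!
# Module PL1 : charts are open maps onto relatively open subsets of the surface
-/

set_option autoImplicit false

open scoped ContDiff Topology
open Filter Set

namespace TM

theorem hasDerivAt_FV {γ : ℝ → Pt} {v : Pt} {t : ℝ} (h : HasDerivAt γ v t) :
    HasDerivAt (fun s => FV (γ s)) (dFV (γ t) v) t := by
  have h1 : HasDerivAt (fun s => (γ s).1) v.1 t :=
    (hasFDerivAt_fst (𝕜 := ℝ) (p := γ t)).comp_hasDerivAt t h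
  have h2 : HasDerivAt (fun s => (γ s).2) v.2 t :=
    (hasFDerivAt_snd (𝕜 := ℝ) (p := γ t)).comp_hasDerivAt t h
  have h3 : HasDerivAt (fun s => (γ s).2.1) v.2.1 t := by
    have h := (hasFDerivAt_fst (𝕜 := ℝ) (E := ℝ) (F := ℝ) (p := (γ t).2)).comp_hasDerivAt t h2
    exact h
  have h4 : HasDerivAt (fun s => (γ s).2.2) v.2.2 t := by
    have h := (hasFDerivAt_snd (𝕜 := ℝ) (E := ℝ) (F := ℝ) (p := (γ t).2)).comp_hasDerivAt t h2
    exact h
  have h5 := (((h1.pow 2).add (h3.pow 2)).add (h4.pow 2)).sub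
    (((h1.const_mul 2).mul h3).mul h4)
  have e1 : (fun s => FV (γ s)) = (fun s => (γ s).1 ^ 2 + (γ s).2.1 ^ 2 + (γ s).2.2 ^ 2
    - 2 * (γ s).1 * (γ s).2.1 * (γ s).2.2) := rfl
  rw [e1]
  refine h5.congr_deriv ?_
  unfold dFV
  norm_num
  ring

/-- the gradient direction -/
def grad (p : Pt) : Pt := (p.1 - p.2.1 * p.2.2, p.2.1 - p.1 * p.2.2, p.2.2 - p.1 * p.2.1)

theorem dFV_grad {e : ℝ} (he : 0 < e) {p : Pt} (hp : p ∈ Surf e) : 0 < dFV p (grad p) := by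
  have h0 : dFV p (grad p) = 2 * ((grad p).1 ^ 2 + (grad p).2.1 ^ 2 + (grad p).2.2 ^ 2) := by
    simp only [dFV, grad]; ring
  rw [h0]
  by_contra hcon
  have h1 : (grad p).1 ^ 2 + (grad p).2.1 ^ 2 + (grad p).2.2 ^ 2 ≤ 0 := by linarith
  have a1 : (grad p).1 = 0 := by
    have := sq_nonneg (grad p).1; have := sq_nonneg (grad p).2.1
    have := sq_nonneg (grad p).2.2
    exact pow_eq_zero_iff (two_ne_zero) |>.1 (by linarith)
  have a2 : (grad p).2.1 = 0 := by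
    have := sq_nonneg (grad p).1; have := sq_nonneg (grad p).2.1
    have := sq_nonneg (grad p).2.2
    exact pow_eq_zero_iff (two_ne_zero) |>.1 (by linarith)
  have a3 : (grad p).2.2 = 0 := by
    have := sq_nonneg (grad p).1; have := sq_nonneg (grad p).2.1
    have := sq_nonneg (grad p).2.2
    exact pow_eq_zero_iff (two_ne_zero) |>.1 (by linarith)
  obtain ⟨x, y, z⟩ := p
  simp only [grad] at a1 a2 a3
  have hs : x ^ 2 + y ^ 2 + z ^ 2 - 2 * x * y * z = 1 + e ^ 2 := hp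
  have b1 : x ^ 2 = x * y * z := by linear_combination x * a1
  have b2 : y ^ 2 = x * y * z := by linear_combination y * a2
  have b3 : z ^ 2 = x * y * z := by linear_combination z * a3
  set t := x * y * z with ht
  have c1 : t = 1 + e ^ 2 := by linear_combination hs - b1 - b2 - b3 + 2 * ht
  have c2 : t ^ 2 = t ^ 3 := by
    calc t ^ 2 = x ^ 2 * y ^ 2 * z ^ 2 := by rw [ht]; ring
      _ = t * t * t := by rw [b1, b2, b3]
      _ = t ^ 3 := by ring
  have c3 : 0 < e ^ 2 := by positivity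
  have c4 : 1 < t := by linarith
  nlinarith [mul_pos (show (0 : ℝ) < t by linarith) (show (0 : ℝ) < t by linarith)]

theorem Chart0.dFV_zero {e : ℝ} {φ : ℝ × ℝ → Pt} (hφ : Chart0 e φ) (z w : ℝ × ℝ) :
    dFV (φ z) (fderiv ℝ φ z w) = 0 := by
  have h1 : HasFDerivAt φ (fderiv ℝ φ z) z :=
    (hφ.smooth.differentiable (by simp) z).hasFDerivAt
  have h2 : HasDerivAt (fun t : ℝ => z + t • w) w 0 := by
    simpa using ((hasDerivAt_id (0 : ℝ)).smul_const w).const_add z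
  have h3 : HasDerivAt (fun t : ℝ => φ (z + t • w)) (fderiv ℝ φ z w) 0 := by
    have h1' : HasFDerivAt φ (fderiv ℝ φ z) (z + (0 : ℝ) • w) := by simpa using h1
    exact h1'.comp_hasDerivAt (0 : ℝ) h2
  have h4 := hasDerivAt_FV h3
  have h5 : (fun t : ℝ => FV (φ (z + t • w))) = fun _ => 1 + e ^ 2 := by
    ext t; exact hφ.mem _
  rw [h5] at h4
  have h6 := h4.unique (hasDerivAt_const (0 : ℝ) (1 + e ^ 2))
  simpa using h6

theorem chart_local {e : ℝ} (he : 0 < e) {φ : ℝ × ℝ → Pt} (hφ : Chart0 e φ) {O : Set (ℝ × ℝ)}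
    (hO : IsOpen O) {z0 : ℝ × ℝ} (hz : z0 ∈ O) :
    ∃ V : Set Pt, IsOpen V ∧ φ z0 ∈ V ∧ V ∩ Surf e ⊆ φ '' O := by
  set n : Pt := grad (φ z0) with hn
  have hpos : 0 < dFV (φ z0) n := dFV_grad he (hφ.mem z0)
  -- the thickened chart
  set Φ : (ℝ × ℝ) × ℝ → Pt := fun q => φ q.1 + q.2 • n with hΦ
  have hst : HasStrictFDerivAt φ (fderiv ℝ φ z0) z0 :=
    hφ.smooth.contDiffAt.hasStrictFDerivAt (by simp)
  set L : (ℝ × ℝ) × ℝ →L[ℝ] Pt :=
    (fderiv ℝ φ z0).comp (ContinuousLinearMap.fst ℝ (ℝ × ℝ) ℝ) +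
      (ContinuousLinearMap.snd ℝ (ℝ × ℝ) ℝ).smulRight n with hL
  have hstΦ : HasStrictFDerivAt Φ L (z0, (0 : ℝ)) := by
    have h1 : HasStrictFDerivAt (fun q : (ℝ × ℝ) × ℝ => φ q.1)
        ((fderiv ℝ φ z0).comp (ContinuousLinearMap.fst ℝ (ℝ × ℝ) ℝ)) (z0, (0 : ℝ)) :=
      HasStrictFDerivAt.comp (z0, (0 : ℝ)) (g := φ) hst hasStrictFDerivAt_fst
    have h2 : HasStrictFDerivAt (fun q : (ℝ × ℝ) × ℝ => q.2 • n)
        ((ContinuousLinearMap.snd ℝ (ℝ × ℝ) ℝ).smulRight n) (z0, (0 : ℝ)) :=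
      ((ContinuousLinearMap.snd ℝ (ℝ × ℝ) ℝ).smulRight n).hasStrictFDerivAt
    exact h1.add h2
  have hinj : Function.Injective L := by
    rw [injective_iff_map_eq_zero]
    rintro ⟨w, s⟩ h
    have h1 : fderiv ℝ φ z0 w + s • n = 0 := by simpa [hL] using h
    have h2 : dFV (φ z0) (fderiv ℝ φ z0 w + s • n) = 0 := by
      rw [h1]; simp [dFV]
    have h3 : dFV (φ z0) (fderiv ℝ φ z0 w + s • n)
        = dFV (φ z0) (fderiv ℝ φ z0 w) + s * dFV (φ z0) n := by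
      simp only [dFV, Prod.fst_add, Prod.snd_add, Prod.smul_fst, Prod.smul_snd, smul_eq_mul]; ring
    rw [h3, hφ.dFV_zero, zero_add] at h2
    have hs : s = 0 := by
      rcases mul_eq_zero.1 h2 with h | h
      · exact h
      · exact absurd h hpos.ne'
    rw [hs, zero_smul, add_zero] at h1
    have hw : w = 0 := by
      apply hφ.imm z0
      rw [h1, map_zero]
    rw [hw, hs]; rfl
  have hsurj : Function.Surjective L := by
    have hfr : Module.finrank ℝ ((ℝ × ℝ) × ℝ) = Module.finrank ℝ Pt := by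
      simp [Pt]
    exact (LinearMap.injective_iff_surjective_of_finrank_eq_finrank (f := (L : (ℝ × ℝ) × ℝ →ₗ[ℝ] Pt))
      hfr).1 hinj
  have hmap : map Φ (𝓝 (z0, (0 : ℝ))) = 𝓝 (Φ (z0, (0 : ℝ))) :=
    hstΦ.map_nhds_eq_of_surj (LinearMap.range_eq_top.2 hsurj)
  have hΦ0 : Φ (z0, (0 : ℝ)) = φ z0 := by simp [hΦ]
  -- a ball where the derivative in the direction `n` is positive
  have hcont : Continuous fun p : Pt => dFV p n := by
    unfold dFV; fun_prop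
  obtain ⟨δ, hδ, hball⟩ : ∃ δ > 0, ∀ p ∈ Metric.ball (φ z0) δ, 0 < dFV p n := by
    have := (hcont.continuousAt (x := φ z0)).eventually (lt_mem_nhds hpos)
    obtain ⟨δ, h1, h2⟩ := Metric.eventually_nhds_iff_ball.1 this
    exact ⟨δ, h1, h2⟩
  have hφc : Continuous φ := hφ.smooth.continuous
  set N : Set ((ℝ × ℝ) × ℝ) := {q | q.1 ∈ O ∧ φ q.1 ∈ Metric.ball (φ z0) δ ∧
    Φ q ∈ Metric.ball (φ z0) δ} with hN
  have hNo : IsOpen N := by
    have hΦc : Continuous Φ := by rw [hΦ]; fun_prop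
    exact (hO.preimage continuous_fst).inter
      ((Metric.isOpen_ball.preimage (hφc.comp continuous_fst)).inter
        (Metric.isOpen_ball.preimage hΦc))
  have hNm : N ∈ 𝓝 (z0, (0 : ℝ)) := by
    apply hNo.mem_nhds
    refine ⟨hz, Metric.mem_ball_self hδ, ?_⟩
    rw [hΦ0]; exact Metric.mem_ball_self hδ
  have himg : Φ '' N ∈ 𝓝 (φ z0) := by
    rw [← hΦ0, ← hmap]
    exact image_mem_map hNm
  obtain ⟨V, hV1, hV2, hV3⟩ := mem_nhds_iff.1 himg
  refine ⟨V, hV2, hV3, ?_⟩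
  rintro p ⟨hpV, hpS⟩
  obtain ⟨⟨z, t⟩, ⟨hzO, hb1, hb2⟩, hq⟩ := hV1 hpV
  have hq' : φ z + t • n = p := hq
  have hb1' : φ z ∈ Metric.ball (φ z0) δ := hb1
  have hb2' : φ z + t • n ∈ Metric.ball (φ z0) δ := hb2
  by_cases ht : t = 0
  · refine ⟨z, hzO, ?_⟩
    rw [← hq', ht, zero_smul, add_zero]
  exfalso
  have hd : ∀ s : ℝ, HasDerivAt (fun s : ℝ => FV (φ z + s • (t • n)))
      (dFV (φ z + s • (t • n)) (t • n)) s := by
    intro s
    have : HasDerivAt (fun s : ℝ => φ z + s • (t • n)) (t • n) s := by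
      simpa using ((hasDerivAt_id s).smul_const (t • n)).const_add (φ z)
    exact hasDerivAt_FV this
  have h0 : FV (φ z + (0 : ℝ) • (t • n)) = FV (φ z + (1 : ℝ) • (t • n)) := by
    have e1 : FV (φ z) = 1 + e ^ 2 := hφ.mem z
    have e2 : FV p = 1 + e ^ 2 := hpS
    rw [zero_smul, add_zero, one_smul, hq', e1, e2]
  obtain ⟨s, hs, hs2⟩ := exists_hasDerivAt_eq_zero (f := fun s : ℝ => FV (φ z + s • (t • n)))
    (f' := fun s : ℝ => dFV (φ z + s • (t • n)) (t • n)) (a := (0 : ℝ)) (b := 1) one_pos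
    (fun x _ => (hd x).continuousAt.continuousWithinAt) h0 (fun x _ => hd x)
  have h5 : dFV (φ z + s • (t • n)) (t • n) = t * dFV (φ z + s • (t • n)) n := by
    simp only [dFV, Prod.smul_fst, Prod.smul_snd, smul_eq_mul]; ring
  have hs2' : dFV (φ z + s • (t • n)) (t • n) = 0 := hs2
  rw [h5] at hs2'
  have h6 : φ z + s • (t • n) ∈ Metric.ball (φ z0) δ := by
    have h7 := (convex_ball (φ z0) δ) hb1' hb2' (show (0 : ℝ) ≤ 1 - s by linarith [hs.2])
      (show (0 : ℝ) ≤ s by linarith [hs.1]) (by ring)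
    convert h7 using 1
    rw [smul_add, ← add_assoc, ← add_smul]
    simp
  rcases mul_eq_zero.1 hs2' with h | h
  · exact ht h
  · exact absurd h (hball _ h6).ne'

theorem chart_open {e : ℝ} (he : 0 < e) {φ : ℝ × ℝ → Pt} (hφ : Chart0 e φ) {O : Set (ℝ × ℝ)}
    (hO : IsOpen O) : ∃ O' : Set Pt, IsOpen O' ∧ O' ∩ Surf e = φ '' O := by
  choose V hV1 hV2 hV3 using fun z : O => chart_local he hφ hO z.2
  refine ⟨⋃ z, V z, isOpen_iUnion hV1, ?_⟩
  apply Subset.antisymm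
  · rintro p ⟨hp, hpS⟩
    obtain ⟨z, hz⟩ := mem_iUnion.1 hp
    exact hV3 z ⟨hz, hpS⟩
  · rintro _ ⟨z, hz, rfl⟩
    exact ⟨mem_iUnion.2 ⟨⟨z, hz⟩, hV2 ⟨z, hz⟩⟩, hφ.mem z⟩

end TM
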